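import Mathlib
import Pool.Agent.D0H11.TW.Stm

/-!
# Project TW, module 13 (PEN): points on the intersection of two diagonal quadrics modulo `l`
-/

set_option autoImplicit false

namespace Pool.Agent.D0H12.TW

open Finset

section
variable (l : ℕ) [Fact l.Prime] [NeZero l]

/-- the quadratic character with complex values -/
noncomputable def qc : MulChar (ZMod l) ℂ := (quadraticChar (ZMod l)).ringHomComp (Int.castRingHom ℂ)

lemma qc_apply (x : ZMod l) : qc l x = ((quadraticChar (ZMod l) x : ℤ) : ℂ) := rfl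

/-- the Gauss sum -/
noncomputable def g0 : ℂ := gaussSum (qc l) (ZMod.stdAddChar (N := l))

/-- the quadratic exponential sum -/
noncomputable def GS (x : ZMod l) : ℂ := ∑ y : ZMod l, ZMod.stdAddChar (x * y ^ 2)

variable {l}

lemma rc (h2 : l ≠ 2) : ringChar (ZMod l) ≠ 2 := by
  rw [ZMod.ringChar_zmod_n]; exact h2

lemma qc_sq {x : ZMod l} (hx : x ≠ 0) : qc l x ^ 2 = 1 := by
  rw [qc_apply]
  have := quadraticChar_sq_one hx
  exact_mod_cast this

lemma qc_norm {x : ZMod l} (hx : x ≠ 0) : ‖qc l x‖ = 1 := by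
  have h := congrArg norm (qc_sq (l := l) hx)
  rw [norm_pow, norm_one] at h
  have h0 : 0 ≤ ‖qc l x‖ := norm_nonneg _
  nlinarith

lemma qc_ne_one (h2 : l ≠ 2) : qc l ≠ 1 := by
  intro h
  obtain ⟨a, ha⟩ := quadraticChar_exists_neg_one' (rc h2)
  have h1 : qc l (a : ZMod l) = 1 := by rw [h]; exact MulChar.one_apply_coe a
  rw [qc_apply, ha] at h1
  norm_num at h1

lemma g0_four (h2 : l ≠ 2) : g0 l ^ 4 = (l : ℂ) ^ 2 := by
  have hq : (qc l).IsQuadratic := MulChar.IsQuadratic.comp (quadraticChar_isQuadratic (ZMod l)) _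
  have h := gaussSum_sq (qc_ne_one h2) hq (ZMod.isPrimitive_stdAddChar l)
  rw [ZMod.card] at h
  have h3 : qc l (-1) ^ 2 = 1 := qc_sq (by simp)
  have h5 : g0 l ^ 2 = qc l (-1) * (l : ℂ) := h
  calc g0 l ^ 4 = (g0 l ^ 2) ^ 2 := by ring
    _ = _ := by rw [h5, mul_pow, h3, one_mul]

lemma g0_norm (h2 : l ≠ 2) : ‖g0 l‖ ^ 2 = l := by
  have h := congrArg norm (g0_four (l := l) h2)
  rw [norm_pow, norm_pow, Complex.norm_natCast] at h
  have h0 : (0 : ℝ) ≤ ‖g0 l‖ ^ 2 := by positivity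
  have h1 : (0 : ℝ) ≤ l := by positivity
  have h3 : (‖g0 l‖ ^ 2) ^ 2 = (l : ℝ) ^ 2 := by rw [← h]; ring
  exact (sq_eq_sq₀ h0 h1).1 h3

lemma sum_std (X : ZMod l) : ∑ a : ZMod l, ZMod.stdAddChar (a * X) = if X = 0 then (l : ℂ) else 0 := by
  classical
  have h := AddChar.sum_mulShift X (ZMod.isPrimitive_stdAddChar l)
  rw [h, ZMod.card]
  split_ifs <;> simp

lemma gauss_shift (μ : ZMod l) (h2 : l ≠ 2) :
    ∑ t : ZMod l, qc l t * ZMod.stdAddChar (t * μ) = qc l μ * g0 l := by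
  by_cases hμ : μ = 0
  · subst hμ
    simp only [mul_zero, AddChar.map_zero_eq_one, mul_one]
    rw [MulChar.sum_eq_zero_of_ne_one (qc_ne_one h2), MulChar.map_nonunit _ (by simp), zero_mul]
  · obtain ⟨a, rfl⟩ : ∃ a : (ZMod l)ˣ, (a : ZMod l) = μ := ⟨Units.mk0 μ hμ, rfl⟩
    have h := gaussSum_mulShift (qc l) (ZMod.stdAddChar (N := l)) a
    have h3 : gaussSum (qc l) (AddChar.mulShift ZMod.stdAddChar (a : ZMod l)) =
        ∑ t : ZMod l, qc l t * ZMod.stdAddChar (t * (a : ZMod l)) := by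
      unfold gaussSum
      refine Finset.sum_congr rfl fun t _ => ?_
      rw [AddChar.mulShift_apply, mul_comm (a : ZMod l) t]
    rw [← h3]
    unfold g0
    rw [← h, ← mul_assoc, ← sq, qc_sq hμ, one_mul]

lemma GS_zero : GS l 0 = l := by
  unfold GS
  simp [ZMod.card]

lemma GS_ne {x : ZMod l} (hx : x ≠ 0) (h2 : l ≠ 2) : GS l x = qc l x * g0 l := by
  classical
  rw [← gauss_shift x h2]
  have h1 : GS l x = ∑ t : ZMod l, (qc l t + 1) * ZMod.stdAddChar (t * x) := by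
    unfold GS
    rw [← Finset.sum_fiberwise_of_maps_to (s := univ) (t := univ) (g := fun y : ZMod l => y ^ 2)
      (fun _ _ => mem_univ _)]
    refine Finset.sum_congr rfl fun t _ => ?_
    have h3 : ∀ y ∈ univ.filter (fun y : ZMod l => y ^ 2 = t),
        ZMod.stdAddChar (x * y ^ 2) = ZMod.stdAddChar (t * x) := by
      intro y hy
      rw [(mem_filter.1 hy).2, mul_comm]
    rw [Finset.sum_congr rfl h3, Finset.sum_const, nsmul_eq_mul]
    congr 1
    have h4 := quadraticChar_card_sqrts (rc h2) t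
    rw [Set.toFinset_card] at h4
    rw [qc_apply]
    have h5 : (univ.filter (fun y : ZMod l => y ^ 2 = t)).card = Fintype.card {x : ZMod l | x ^ 2 = t} := by
      rw [← Set.toFinset_card]
      congr 1
      ext y
      simp
    rw [h5]
    have h6 : ((Fintype.card {x : ZMod l | x ^ 2 = t} : ℤ) : ℂ) = ((quadraticChar (ZMod l) t + 1 : ℤ) : ℂ) := by
      exact_mod_cast h4
    rw [← Int.cast_natCast, h6]
    push_cast
    ring
  rw [h1]
  simp_rw [add_mul, one_mul]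
  rw [Finset.sum_add_distrib, sum_std, if_neg hx, add_zero]


/-- one summand -/
noncomputable def FF (c : Fin 4 → ZMod l) (n τ a b : ZMod l) : ℂ :=
  ZMod.stdAddChar (-(a * n + b * τ)) * ∏ i, GS l (a + b * c i)

lemma count_eq (c : Fin 4 → ZMod l) (n τ : ZMod l) :
    (l : ℂ) ^ 2 * (((univ : Finset (Fin 4 → ZMod l)).filter (fun v => ∑ i, v i ^ 2 = n ∧
      ∑ i, c i * v i ^ 2 = τ)).card : ℂ) = ∑ a, ∑ b, FF c n τ a b := by
  classical
  have h1 : ∀ a b : ZMod l, FF c n τ a b = ∑ v : Fin 4 → ZMod l,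
      ZMod.stdAddChar (a * (∑ i, v i ^ 2 - n)) * ZMod.stdAddChar (b * (∑ i, c i * v i ^ 2 - τ)) := by
    intro a b
    unfold FF GS
    rw [Finset.prod_univ_sum, Fintype.piFinset_univ, Finset.mul_sum]
    refine Finset.sum_congr rfl fun v _ => ?_
    rw [← AddChar.map_add_eq_mul]
    have h2 : ∏ i, ZMod.stdAddChar ((a + b * c i) * v i ^ 2) =
        ZMod.stdAddChar (∑ i, (a + b * c i) * v i ^ 2) := by
      simp only [Fin.prod_univ_four, Fin.sum_univ_four, AddChar.map_add_eq_mul]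
    rw [h2, ← AddChar.map_add_eq_mul]
    congr 1
    rw [mul_sub, mul_sub, Finset.mul_sum, Finset.mul_sum]
    simp_rw [add_mul, mul_assoc]
    rw [Finset.sum_add_distrib]
    ring
  have h3 : ∑ a, ∑ b, FF c n τ a b = ∑ v : Fin 4 → ZMod l,
      (∑ a, ZMod.stdAddChar (a * (∑ i, v i ^ 2 - n))) * (∑ b, ZMod.stdAddChar (b * (∑ i, c i * v i ^ 2 - τ))) := by
    simp_rw [h1]
    have h4 : ∀ v : Fin 4 → ZMod l, (∑ a, ZMod.stdAddChar (a * (∑ i, v i ^ 2 - n))) *
        (∑ b, ZMod.stdAddChar (b * (∑ i, c i * v i ^ 2 - τ))) =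
        ∑ a, ∑ b, ZMod.stdAddChar (a * (∑ i, v i ^ 2 - n)) * ZMod.stdAddChar (b * (∑ i, c i * v i ^ 2 - τ)) := by
      intro v
      rw [Finset.sum_mul_sum]
    simp_rw [h4]
    have h5 : ∀ a : ZMod l, (∑ b : ZMod l, ∑ v : Fin 4 → ZMod l, ZMod.stdAddChar (a * (∑ i, v i ^ 2 - n)) *
        ZMod.stdAddChar (b * (∑ i, c i * v i ^ 2 - τ))) = ∑ v : Fin 4 → ZMod l, ∑ b : ZMod l,
        ZMod.stdAddChar (a * (∑ i, v i ^ 2 - n)) * ZMod.stdAddChar (b * (∑ i, c i * v i ^ 2 - τ)) :=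
      fun a => Finset.sum_comm
    rw [Finset.sum_congr rfl fun a _ => h5 a, Finset.sum_comm]
  rw [h3]
  simp_rw [sum_std]
  rw [Finset.card_filter]
  push_cast
  rw [Finset.mul_sum]
  refine Finset.sum_congr rfl fun v _ => ?_
  by_cases h5 : ∑ i, v i ^ 2 = n
  · by_cases h6 : ∑ i, c i * v i ^ 2 = τ
    · rw [if_pos ⟨h5, h6⟩, if_pos (sub_eq_zero.2 h5), if_pos (sub_eq_zero.2 h6)]; ring
    · rw [if_neg (fun h => h6 h.2), if_neg (fun h => h6 (sub_eq_zero.1 h)), mul_zero, mul_zero]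
  · rw [if_neg (fun h => h5 h.1), if_neg (fun h => h5 (sub_eq_zero.1 h)), mul_zero, zero_mul]

lemma total (c : Fin 4 → ZMod l) (n τ : ZMod l) :
    ∑ a, ∑ b, FF c n τ a b = (l : ℂ) ^ 4 + ∑ a ∈ univ.erase 0, FF c n τ a 0 +
      ∑ s, ∑ b ∈ univ.erase 0, FF c n τ (b * s) b := by
  classical
  rw [Finset.sum_comm, ← Finset.add_sum_erase univ _ (mem_univ (0 : ZMod l)),
    ← Finset.add_sum_erase univ _ (mem_univ (0 : ZMod l))]
  have h1 : FF c n τ 0 0 = (l : ℂ) ^ 4 := by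
    unfold FF
    simp [GS_zero]
  have h2 : ∑ b ∈ univ.erase (0 : ZMod l), ∑ a, FF c n τ a b =
      ∑ s, ∑ b ∈ univ.erase 0, FF c n τ (b * s) b := by
    rw [Finset.sum_comm (s := univ) (t := univ.erase (0 : ZMod l))]
    refine Finset.sum_congr rfl fun b hb => ?_
    have hb0 : b ≠ 0 := Finset.ne_of_mem_erase hb
    exact (Fintype.sum_equiv (Equiv.mulLeft₀ b hb0) (fun s => FF c n τ (b * s) b)
      (fun a => FF c n τ a b) (fun s => rfl)).symm
  rw [h1, h2]

lemma std_norm (x : ZMod l) : ‖ZMod.stdAddChar x‖ = 1 := by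
  rw [ZMod.stdAddChar_apply]
  exact Circle.norm_coe _

lemma erase_sum (X : ZMod l) : ∑ b ∈ univ.erase (0 : ZMod l), ZMod.stdAddChar (b * X) =
    (if X = 0 then (l : ℂ) else 0) - 1 := by
  classical
  rw [← sum_std, ← Finset.add_sum_erase univ _ (mem_univ (0 : ZMod l))]
  simp

lemma qc_four {x : ZMod l} (hx : x ≠ 0) : qc l x ^ 4 = 1 := by
  have := qc_sq (l := l) hx
  calc qc l x ^ 4 = (qc l x ^ 2) ^ 2 := by ring
    _ = 1 := by rw [this, one_pow]

lemma FF_gen (c : Fin 4 → ZMod l) (n τ s b : ZMod l) (h2 : l ≠ 2) (hb : b ≠ 0)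
    (hs : ∀ i, s + c i ≠ 0) :
    FF c n τ (b * s) b = ((∏ i, qc l (s + c i)) * (l : ℂ) ^ 2) * ZMod.stdAddChar (b * -(s * n + τ)) := by
  unfold FF
  have h3 : ∀ i, GS l (b * s + b * c i) = qc l b * qc l (s + c i) * g0 l := by
    intro i
    rw [← mul_add, GS_ne (mul_ne_zero hb (hs i)) h2, map_mul]
  simp_rw [h3]
  rw [Finset.prod_mul_distrib, Finset.prod_mul_distrib, Finset.prod_const, Finset.prod_const,
    Finset.card_univ, Fintype.card_fin, g0_four h2, qc_four hb]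
  have h4 : -(b * s * n + b * τ) = b * -(s * n + τ) := by ring
  rw [h4]
  ring

lemma gen_norm (c : Fin 4 → ZMod l) (n τ s : ZMod l) (h2 : l ≠ 2)
    (hs : ∀ i, s + c i ≠ 0) :
    ‖∑ b ∈ univ.erase 0, FF c n τ (b * s) b‖ ≤ (l : ℝ) ^ 2 + if s * n + τ = 0 then (l : ℝ) ^ 3 else 0 := by
  classical
  have h3 : ∑ b ∈ univ.erase 0, FF c n τ (b * s) b =
      ((∏ i, qc l (s + c i)) * (l : ℂ) ^ 2) * ((if -(s * n + τ) = 0 then (l : ℂ) else 0) - 1) := by
    rw [← erase_sum, Finset.mul_sum]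
    exact Finset.sum_congr rfl fun b hb => FF_gen c n τ s b h2 (Finset.ne_of_mem_erase hb) hs
  rw [h3, norm_mul, norm_mul, norm_prod]
  have h4 : ∏ i, ‖qc l (s + c i)‖ = 1 := Finset.prod_eq_one fun i _ => qc_norm (hs i)
  rw [h4, one_mul, norm_pow, Complex.norm_natCast]
  have hl : (0 : ℝ) ≤ l := Nat.cast_nonneg _
  by_cases h5 : s * n + τ = 0
  · rw [if_pos (by simp [h5]), if_pos h5]
    have h6 : ‖(l : ℂ) - 1‖ ≤ l + 1 := by
      refine (norm_sub_le _ _).trans ?_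
      simp
    calc (l : ℝ) ^ 2 * ‖(l : ℂ) - 1‖ ≤ (l : ℝ) ^ 2 * (l + 1) := by gcongr
      _ = _ := by ring
  · rw [if_neg (fun h => h5 (neg_eq_zero.1 h)), if_neg h5]
    simp

lemma bad_norm (c : Fin 4 → ZMod l) (hc : Function.Injective c) (n τ s : ZMod l) (h2 : l ≠ 2) (j : Fin 4)
    (hj : s + c j = 0) :
    ‖∑ b ∈ univ.erase 0, FF c n τ (b * s) b‖ ≤ (l : ℝ) ^ 3 := by
  classical
  have hne : ∀ i ∈ univ.erase j, s + c i ≠ 0 := by
    intro i hi h
    exact Finset.ne_of_mem_erase hi (hc (by linear_combination h - hj))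
  have h3 : ∀ b ∈ univ.erase (0 : ZMod l), FF c n τ (b * s) b =
      ((l : ℂ) * (∏ i ∈ univ.erase j, qc l (s + c i)) * g0 l ^ 3) *
        (qc l b * ZMod.stdAddChar (b * -(s * n + τ))) := by
    intro b hb
    have hb0 := Finset.ne_of_mem_erase hb
    unfold FF
    rw [← Finset.mul_prod_erase univ _ (mem_univ j)]
    have h4 : ∀ i ∈ univ.erase j, GS l (b * s + b * c i) = qc l b * qc l (s + c i) * g0 l := by
      intro i hi
      rw [← mul_add, GS_ne (mul_ne_zero hb0 (hne i hi)) h2, map_mul]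
    rw [Finset.prod_congr rfl h4, Finset.prod_mul_distrib, Finset.prod_mul_distrib, Finset.prod_const,
      Finset.prod_const, Finset.card_erase_of_mem (mem_univ j), Finset.card_univ, Fintype.card_fin]
    have h5 : b * s + b * c j = 0 := by rw [← mul_add, hj, mul_zero]
    rw [h5, GS_zero]
    have h6 : qc l b ^ (4 - 1) = qc l b := by
      have := qc_sq (l := l) hb0
      calc qc l b ^ (4 - 1) = qc l b ^ 2 * qc l b := by norm_num; ring
        _ = _ := by rw [this, one_mul]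
    rw [h6]
    have h4 : -(b * s * n + b * τ) = b * -(s * n + τ) := by ring
    rw [h4]
    norm_num
    ring
  rw [Finset.sum_congr rfl h3, ← Finset.mul_sum]
  have h7 : ∑ b ∈ univ.erase (0 : ZMod l), qc l b * ZMod.stdAddChar (b * -(s * n + τ)) =
      qc l (-(s * n + τ)) * g0 l := by
    rw [← gauss_shift _ h2, ← Finset.add_sum_erase univ _ (mem_univ (0 : ZMod l)),
      MulChar.map_nonunit _ (by simp : ¬ IsUnit (0 : ZMod l)), zero_mul, zero_add]
  rw [h7, norm_mul, norm_mul, norm_mul, norm_mul, norm_prod, norm_pow, Complex.norm_natCast]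
  have h8 : ∏ i ∈ univ.erase j, ‖qc l (s + c i)‖ = 1 := Finset.prod_eq_one fun i hi => qc_norm (hne i hi)
  have h9 : ‖qc l (-(s * n + τ))‖ ≤ 1 := by
    by_cases h : -(s * n + τ) = 0
    · rw [h, MulChar.map_nonunit _ (by simp : ¬ IsUnit (0 : ZMod l))]; simp
    · exact (qc_norm h).le
  rw [h8, mul_one]
  have h10 := g0_norm (l := l) h2
  calc (l : ℝ) * ‖g0 l‖ ^ 3 * (‖qc l (-(s * n + τ))‖ * ‖g0 l‖)
      = (l : ℝ) * (‖g0 l‖ ^ 2) ^ 2 * ‖qc l (-(s * n + τ))‖ := by ring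
    _ = (l : ℝ) ^ 3 * ‖qc l (-(s * n + τ))‖ := by rw [h10]; ring
    _ ≤ (l : ℝ) ^ 3 * 1 := by gcongr
    _ = _ := by ring

lemma zero_norm (c : Fin 4 → ZMod l) (n τ : ZMod l) (h2 : l ≠ 2) :
    ‖∑ a ∈ univ.erase 0, FF c n τ a 0‖ ≤ (l : ℝ) ^ 3 := by
  classical
  have h1 : ∀ a ∈ univ.erase (0 : ZMod l), ‖FF c n τ a 0‖ ≤ (l : ℝ) ^ 2 := by
    intro a ha
    have ha0 := Finset.ne_of_mem_erase ha
    unfold FF
    have h3 : ∀ i : Fin 4, GS l (a + 0 * c i) = qc l a * g0 l := by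
      intro i
      rw [zero_mul, add_zero, GS_ne ha0 h2]
    simp_rw [h3]
    rw [Finset.prod_const, Finset.card_univ, Fintype.card_fin, mul_pow, qc_four ha0, one_mul,
      g0_four h2, norm_mul, std_norm, one_mul, norm_pow, Complex.norm_natCast]
  refine (norm_sum_le _ _).trans ((Finset.sum_le_card_nsmul _ _ _ h1).trans ?_)
  rw [nsmul_eq_mul]
  have h4 : ((univ.erase (0 : ZMod l)).card : ℝ) ≤ l := by
    have : (univ.erase (0 : ZMod l)).card ≤ (univ : Finset (ZMod l)).card := Finset.card_erase_le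
    rw [Finset.card_univ, ZMod.card] at this
    exact_mod_cast this
  calc ((univ.erase (0 : ZMod l)).card : ℝ) * (l : ℝ) ^ 2 ≤ l * (l : ℝ) ^ 2 := by gcongr
    _ = _ := by ring

theorem pen_gen (c : Fin 4 → ZMod l) (hc : Function.Injective c) (n τ : ZMod l) (h2 : l ≠ 2)
    (hn : ¬ (n = 0 ∧ τ = 0)) :
    |((((univ : Finset (Fin 4 → ZMod l)).filter (fun v => ∑ i, v i ^ 2 = n ∧
      ∑ i, c i * v i ^ 2 = τ)).card : ℕ) : ℝ) - (l : ℝ) ^ 2| ≤ 7 * l := by
  classical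
  set K := (((univ : Finset (Fin 4 → ZMod l)).filter (fun v => ∑ i, v i ^ 2 = n ∧
      ∑ i, c i * v i ^ 2 = τ)).card : ℕ) with hK
  have hl : (0 : ℝ) < l := by
    have := (Fact.out : l.Prime).pos
    exact_mod_cast this
  have h1 := count_eq c n τ
  rw [total, ← hK] at h1
  have h3 : (l : ℂ) ^ 2 * ((K : ℂ) - (l : ℂ) ^ 2) = ∑ a ∈ univ.erase 0, FF c n τ a 0 +
      ∑ s, ∑ b ∈ univ.erase 0, FF c n τ (b * s) b := by
    rw [mul_sub, h1]; ring
  have h4 : ‖(l : ℂ) ^ 2 * ((K : ℂ) - (l : ℂ) ^ 2)‖ = (l : ℝ) ^ 2 * |(K : ℝ) - (l : ℝ) ^ 2| := by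
    rw [norm_mul, norm_pow, Complex.norm_natCast]
    congr 1
    rw [← Complex.ofReal_natCast K, ← Complex.ofReal_natCast l, ← Complex.ofReal_pow,
      ← Complex.ofReal_sub, Complex.norm_real, Real.norm_eq_abs]
  have h5 : ∀ s : ZMod l, ‖∑ b ∈ univ.erase 0, FF c n τ (b * s) b‖ ≤
      (l : ℝ) ^ 2 + (if s * n + τ = 0 then (l : ℝ) ^ 3 else 0) +
        ∑ j : Fin 4, (if s + c j = 0 then (l : ℝ) ^ 3 else 0) := by
    intro s
    have hnn : ∀ j ∈ (univ : Finset (Fin 4)), (0 : ℝ) ≤ (if s + c j = 0 then (l : ℝ) ^ 3 else 0) := by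
      intro j _; split_ifs <;> positivity
    by_cases hs : ∀ i, s + c i ≠ 0
    · refine (gen_norm c n τ s h2 hs).trans ?_
      linarith [Finset.sum_nonneg hnn]
    · push Not at hs
      obtain ⟨j, hj⟩ := hs
      refine (bad_norm c hc n τ s h2 j hj).trans ?_
      have h6 := Finset.single_le_sum hnn (mem_univ j)
      simp only [hj, if_true] at h6
      have h7 : (0 : ℝ) ≤ (if s * n + τ = 0 then (l : ℝ) ^ 3 else 0) := by split_ifs <;> positivity
      have h8 : (0 : ℝ) ≤ (l : ℝ) ^ 2 := by positivity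
      linarith
  have h6 : ‖∑ s, ∑ b ∈ univ.erase 0, FF c n τ (b * s) b‖ ≤ 6 * (l : ℝ) ^ 3 := by
    refine (norm_sum_le _ _).trans ((Finset.sum_le_sum fun s _ => h5 s).trans ?_)
    rw [Finset.sum_add_distrib, Finset.sum_add_distrib, Finset.sum_const, Finset.card_univ, ZMod.card,
      nsmul_eq_mul, Finset.sum_comm]
    have h7 : ∀ j ∈ (univ : Finset (Fin 4)), ∑ s : ZMod l, (if s + c j = 0 then (l : ℝ) ^ 3 else 0) ≤ (l : ℝ) ^ 3 := by
      intro j _
      have : ∀ s : ZMod l, (s + c j = 0) ↔ (s = -c j) := fun s => by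
        constructor
        · intro h; linear_combination h
        · intro h; rw [h]; ring
      simp_rw [this]
      simp
    have h8 := Finset.sum_le_card_nsmul _ _ _ h7
    rw [Finset.card_univ, Fintype.card_fin, nsmul_eq_mul] at h8
    have h9 : ∑ s : ZMod l, (if s * n + τ = 0 then (l : ℝ) ^ 3 else 0) ≤ (l : ℝ) ^ 3 := by
      by_cases hn0 : n = 0
      · have hτ : τ ≠ 0 := fun h => hn ⟨hn0, h⟩
        simp only [hn0, mul_zero, zero_add, hτ, if_false, Finset.sum_const_zero]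
        positivity
      · have : ∀ s : ZMod l, (s * n + τ = 0) ↔ (s = -τ / n) := fun s => by
          rw [eq_div_iff hn0]
          constructor
          · intro h; linear_combination h
          · intro h; rw [h]; ring
        simp_rw [this]
        simp
    push_cast at h8
    have h10 : (l : ℝ) * (l : ℝ) ^ 2 = (l : ℝ) ^ 3 := by ring
    linarith
  have h7 : (l : ℝ) ^ 2 * |(K : ℝ) - (l : ℝ) ^ 2| ≤ 7 * (l : ℝ) ^ 3 := by
    rw [← h4, h3]
    refine (norm_add_le _ _).trans ?_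
    linarith [zero_norm c n τ h2]
  have h8 : (l : ℝ) ^ 2 * |(K : ℝ) - (l : ℝ) ^ 2| ≤ (l : ℝ) ^ 2 * (7 * l) := by
    refine h7.trans (le_of_eq (by ring))
  exact le_of_mul_le_mul_left h8 (by positivity)

end

lemma cc_inj (l : ℕ) (h11 : 11 ≤ l) : Function.Injective fun i : Fin 4 => ((D0H11.TW.cc i : ℤ) : ZMod l) := by
  intro i j hij
  have h1 := (ZMod.intCast_eq_intCast_iff_dvd_sub _ _ l).1 hij
  have h3 : D0H11.TW.cc j - D0H11.TW.cc i = 0 := by
    apply Int.eq_zero_of_abs_lt_dvd h1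
    have h4 : |D0H11.TW.cc j - D0H11.TW.cc i| ≤ 6 := by
      fin_cases i <;> fin_cases j <;> simp [D0H11.TW.cc]
    have h5 : (11 : ℤ) ≤ l := by exact_mod_cast h11
    linarith
  fin_cases i <;> fin_cases j <;> simp_all [D0H11.TW.cc]

/-- module 13 -/
theorem pen : D0H11.TW.S_PEN := by
  intro l _ _ h11 n τ hn
  have h := pen_gen (l := l) (fun i => ((D0H11.TW.cc i : ℤ) : ZMod l)) (cc_inj l h11) n τ (by omega) hn
  refine h.trans ?_
  have : (0 : ℝ) ≤ l := Nat.cast_nonneg _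
  linarith

end Pool.Agent.D0H12.TW
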