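import Mathlib
import Pool.Agent.D0H11.TW.StmB
import Pool.Agent.W65.FS.Sieve
import Pool.Agent.Erdos456.Mertens

/-!
# Project TW, module 14 (SV): upper bound sieve on the sphere, uniform in `n`
-/

set_option autoImplicit false

namespace Pool.Agent.D0H12.TW

open Finset Pool.Agent.W65.FS

open Classical in
/-- bad classes modulo `l` -/
noncomputable def SS (H : Finset ℤ) (n l : ℕ) : Finset (Fin 4 → ℤ) :=
  (Gl n l).filter (fun c => ∃ h ∈ H, ¬ ((l : ℤ) ∣ n ∧ (l : ℤ) ∣ h) ∧ (l : ℤ) ∣ pf c - h)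

lemma mem_SS (H : Finset ℤ) (n l : ℕ) (c : Fin 4 → ℤ) : c ∈ SS H n l ↔
    c ∈ Gl n l ∧ ∃ h ∈ H, ¬ ((l : ℤ) ∣ n ∧ (l : ℤ) ∣ h) ∧ (l : ℤ) ∣ pf c - h := by
  unfold SS
  rw [Finset.mem_filter]

lemma SS_card_le (H : Finset ℤ) (n l : ℕ) (hl : l.Prime) (hl2 : l ≠ 2) :
    (SS H n l).card ≤ (4 * H.card) * l ^ 2 := by
  classical
  have h1 : SS H n l ⊆ H.biUnion (fun h => (Gl n l).filter (fun c => (l : ℤ) ∣ pf c - h)) := by
    intro c hc
    rw [mem_SS] at hc
    obtain ⟨hc1, h, hh, _, hd⟩ := hc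
    exact Finset.mem_biUnion.2 ⟨h, hh, Finset.mem_filter.2 ⟨hc1, hd⟩⟩
  refine (Finset.card_le_card h1).trans ?_
  refine (Finset.card_biUnion_le_card_mul H _ (4 * l ^ 2)
    (fun h _ => bad_tau l hl hl2 n h _ (fun c hc => Finset.mem_filter.1 hc))).trans (le_of_eq (by ring))

lemma sol_le_filter (l : ℕ) [Fact l.Prime] [NeZero l] (n : ℕ) (h : ℤ)
    (hne : ¬ ((l : ℤ) ∣ n ∧ (l : ℤ) ∣ h)) :
    ((univ : Finset (Fin 4 → ZMod l)).filter (fun v => ∑ i, v i ^ 2 = ((n : ℕ) : ZMod l) ∧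
      ∑ i, ((D0H11.TW.cc i : ℤ) : ZMod l) * v i ^ 2 = ((h : ℤ) : ZMod l))).card ≤
    ((Gl n l).filter (fun c => (l : ℤ) ∣ pf c - h)).card := by
  classical
  apply Finset.card_le_card_of_injOn (fun u i => ((u i).val : ℤ))
  · intro u hu
    rw [Finset.mem_coe, Finset.mem_filter] at hu
    obtain ⟨_, hu1, hu2⟩ := hu
    rw [Finset.mem_coe, Finset.mem_filter, mem_Gl]
    refine ⟨⟨fun i => ⟨by positivity, ?_⟩, ?_, ?_⟩, ?_⟩
    · have := ZMod.val_lt (u i)
      show ((u i).val : ℤ) < l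
      exact_mod_cast this
    · rw [← ZMod.intCast_zmod_eq_zero_iff_dvd]
      push_cast
      simp only [ZMod.natCast_zmod_val]
      rw [hu1, sub_self]
    · by_contra h0
      push Not at h0
      apply hne
      have h3 : ∀ i, u i = 0 := by
        intro i
        have := (ZMod.intCast_zmod_eq_zero_iff_dvd _ l).2 (h0 i)
        push_cast at this
        rw [ZMod.natCast_zmod_val] at this
        exact this
      simp only [h3] at hu1 hu2
      constructor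
      · rw [← ZMod.intCast_zmod_eq_zero_iff_dvd]
        push_cast
        rw [← hu1]
        simp
      · rw [← ZMod.intCast_zmod_eq_zero_iff_dvd, ← hu2]
        simp
    · rw [← ZMod.intCast_zmod_eq_zero_iff_dvd]
      unfold pf
      push_cast
      simp only [ZMod.natCast_zmod_val]
      rw [Fin.sum_univ_four] at hu2
      simp only [D0H11.TW.cc, Matrix.cons_val_zero, Matrix.cons_val_one, Matrix.cons_val] at hu2
      push_cast at hu2
      rw [← hu2]
      ring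
  · intro u _ u' _ huu
    funext i
    have := congrFun huu i
    simp only [Nat.cast_inj] at this
    exact ZMod.val_injective _ this

lemma Gl_card_le (l : ℕ) (hlp : l.Prime) (hl2 : l ≠ 2) (n : ℕ) :
    ((Gl n l).card : ℝ) ≤ (l : ℝ) ^ 3 + (l : ℝ) ^ 2 := by
  classical
  have : NeZero l := ⟨hlp.ne_zero⟩
  have : Fact l.Prime := ⟨hlp⟩
  have hlo : Odd l := hlp.odd_of_ne_two hl2
  have hl0 : (0 : ℝ) < l := by exact_mod_cast hlp.pos
  set S := univ.filter (fun u : Fin 4 → ZMod l => ∑ i, u i ^ 2 = (n : ZMod l)) with hS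
  have h1 := count_quad l hlo (n : ZMod l)
  rw [← hS] at h1
  have h2 : (S.card : ℝ) * l = (l : ℝ) ^ 4 + (l : ℝ) ^ 2 * ((if (n : ZMod l) = 0 then (l : ℝ) else 0) - 1) := by
    have h3 : (((S.card : ℝ) * l : ℝ) : ℂ) = (((l : ℝ) ^ 4 + (l : ℝ) ^ 2 * ((if (n : ZMod l) = 0 then (l : ℝ) else 0) - 1) : ℝ) : ℂ) := by
      push_cast
      rw [h1]
      split_ifs <;> push_cast <;> ring
    exact_mod_cast h3
  have h4 : (Gl n l).card ≤ S.card := by
    apply Finset.card_le_card_of_injOn (fun c i => ((c i : ℤ) : ZMod l))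
    · intro c hc
      rw [Finset.mem_coe, mem_Gl] at hc
      rw [Finset.mem_coe, hS, Finset.mem_filter]
      refine ⟨Finset.mem_univ _, ?_⟩
      have h5 := (ZMod.intCast_zmod_eq_zero_iff_dvd _ l).2 hc.2.1
      push_cast at h5
      exact sub_eq_zero.1 h5
    · intro c hc c' hc' hcc
      rw [Finset.mem_coe, mem_Gl] at hc hc'
      funext i
      have h5 := congrFun hcc i
      simp only at h5
      have h6 := (ZMod.intCast_eq_intCast_iff_dvd_sub _ _ l).1 h5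
      have h7 := hc.1 i
      have h8 := hc'.1 i
      have h9 := Int.eq_zero_of_abs_lt_dvd h6 (by rw [abs_lt]; constructor <;> linarith)
      linarith
  have h5 : (S.card : ℝ) ≤ (l : ℝ) ^ 3 + (l : ℝ) ^ 2 := by
    have h6 : (S.card : ℝ) * l ≤ ((l : ℝ) ^ 3 + (l : ℝ) ^ 2) * l := by
      rw [h2]
      have h7 : (if (n : ZMod l) = 0 then (l : ℝ) else 0) ≤ l := by split_ifs <;> linarith
      nlinarith [mul_le_mul_of_nonneg_left h7 (by positivity : (0:ℝ) ≤ (l : ℝ) ^ 2)]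
    exact le_of_mul_le_mul_right h6 hl0
  exact le_trans (by exact_mod_cast h4) h5

lemma SS_card_ge (hpen : D0H11.TW.S_PEN) (H : Finset ℤ) (n l : ℕ) (hl : l.Prime) (hl11 : 11 ≤ l)
    (hH : ∀ h ∈ H, ∀ h' ∈ H, h ≠ h' → ¬ (l : ℤ) ∣ h - h') :
    (((H.filter (fun h => ¬ ((l : ℤ) ∣ n ∧ (l : ℤ) ∣ h))).card : ℕ) : ℝ) * ((l : ℝ) ^ 2 - 20 * l) ≤
      (SS H n l).card := by
  classical
  have : NeZero l := ⟨hl.ne_zero⟩
  have : Fact l.Prime := ⟨hl⟩
  set H' := H.filter (fun h => ¬ ((l : ℤ) ∣ n ∧ (l : ℤ) ∣ h)) with hH'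
  have h1 : H'.biUnion (fun h => (Gl n l).filter (fun c => (l : ℤ) ∣ pf c - h)) ⊆ SS H n l := by
    intro c hc
    rw [Finset.mem_biUnion] at hc
    obtain ⟨h, hh, hc⟩ := hc
    rw [Finset.mem_filter] at hc
    rw [hH', Finset.mem_filter] at hh
    rw [mem_SS]
    exact ⟨hc.1, h, hh.1, hh.2, hc.2⟩
  have h2 : (H'.biUnion (fun h => (Gl n l).filter (fun c => (l : ℤ) ∣ pf c - h))).card =
      ∑ h ∈ H', ((Gl n l).filter (fun c => (l : ℤ) ∣ pf c - h)).card := by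
    apply Finset.card_biUnion
    intro h hh h' hh' hne
    rw [Function.onFun, Finset.disjoint_left]
    intro c hc hc'
    rw [Finset.mem_filter] at hc hc'
    rw [hH', Finset.mem_coe, Finset.mem_filter] at hh hh'
    apply hH h hh.1 h' hh'.1 hne
    have := dvd_sub hc'.2 hc.2
    have h3 : pf c - h' - (pf c - h) = h - h' := by ring
    rwa [h3] at this
  have h3 : ∀ h ∈ H', (l : ℝ) ^ 2 - 20 * l ≤ (((Gl n l).filter (fun c => (l : ℤ) ∣ pf c - h)).card : ℝ) := by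
    intro h hh
    rw [hH', Finset.mem_filter] at hh
    have h4 := sol_le_filter l n h hh.2
    have h5 := hpen l hl11 (n : ZMod l) (h : ZMod l) (by
      rintro ⟨h6, h7⟩
      apply hh.2
      constructor
      · rw [← ZMod.intCast_zmod_eq_zero_iff_dvd]
        push_cast
        exact h6
      · rw [← ZMod.intCast_zmod_eq_zero_iff_dvd]
        exact h7)
    have h6 := (abs_le.1 h5).1
    have h7 : ((((univ : Finset (Fin 4 → ZMod l)).filter (fun v => ∑ i, v i ^ 2 = ((n : ℕ) : ZMod l) ∧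
      ∑ i, ((D0H11.TW.cc i : ℤ) : ZMod l) * v i ^ 2 = ((h : ℤ) : ZMod l))).card : ℕ) : ℝ) ≤
        (((Gl n l).filter (fun c => (l : ℤ) ∣ pf c - h)).card : ℝ) := by exact_mod_cast h4
    linarith
  calc (H'.card : ℝ) * ((l : ℝ) ^ 2 - 20 * l) = ∑ _h ∈ H', ((l : ℝ) ^ 2 - 20 * l) := by
        rw [Finset.sum_const, nsmul_eq_mul]
    _ ≤ ∑ h ∈ H', (((Gl n l).filter (fun c => (l : ℤ) ∣ pf c - h)).card : ℝ) := Finset.sum_le_sum h3
    _ = (((H'.biUnion (fun h => (Gl n l).filter (fun c => (l : ℤ) ∣ pf c - h))).card : ℕ) : ℝ) := by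
        rw [h2]; push_cast; rfl
    _ ≤ _ := by exact_mod_cast Finset.card_le_card h1

/-- density of the bad classes -/
noncomputable def gS (H : Finset ℤ) (n l : ℕ) : ℝ := ((SS H n l).card : ℝ) / (Gl n l).card

lemma Gl_pos (l : ℕ) (hl : l.Prime) (hl2 : l ≠ 2) (n : ℕ) : 0 < ((Gl n l).card : ℝ) := by
  have hl3 : (3 : ℝ) ≤ l := by
    have : 3 ≤ l := by
      have := hl.two_le
      omega
    exact_mod_cast this
  have h1 := count_lower l hl hl2 n
  have hpos : 0 < (l : ℝ) ^ 3 - l := by nlinarith [mul_pos (show (0:ℝ) < l by linarith) (show (0:ℝ) < l by linarith)]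
  linarith

lemma Gl_nonempty (l : ℕ) (hl : l.Prime) (hl2 : l ≠ 2) (n : ℕ) : (Gl n l).Nonempty := by
  have h := Gl_pos l hl hl2 n
  exact Finset.card_pos.1 (by exact_mod_cast h)

lemma gS_bound (H : Finset ℤ) (n l : ℕ) (hl : l.Prime) (hl2 : l ≠ 2) :
    0 ≤ gS H n l ∧ gS H n l ≤ ((4 * H.card : ℕ) : ℝ) / ((l : ℝ) - 1) := by
  have hl3 : (3 : ℝ) ≤ l := by
    have : 3 ≤ l := by
      have := hl.two_le
      omega
    exact_mod_cast this
  have h1 := count_lower l hl hl2 n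
  have hpos : 0 < (l : ℝ) ^ 3 - l := by nlinarith [mul_pos (show (0:ℝ) < l by linarith) (show (0:ℝ) < l by linarith)]
  have h2 : ((SS H n l).card : ℝ) ≤ ((4 * H.card : ℕ) : ℝ) * (l : ℝ) ^ 2 := by
    exact_mod_cast SS_card_le H n l hl hl2
  refine ⟨by unfold gS; positivity, ?_⟩
  unfold gS
  generalize ((4 * H.card : ℕ) : ℝ) = κ' at h2 ⊢
  have hκ : (0 : ℝ) ≤ κ' := by
    have h3 : (0 : ℝ) ≤ κ' * (l : ℝ) ^ 2 := le_trans (Nat.cast_nonneg _) h2
    exact nonneg_of_mul_nonneg_left h3 (by positivity)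
  calc ((SS H n l).card : ℝ) / (Gl n l).card ≤ (κ' * (l : ℝ) ^ 2) / ((l : ℝ) ^ 3 - l) :=
        div_le_div₀ (by positivity) h2 hpos h1
    _ ≤ κ' / ((l : ℝ) - 1) := by
      rw [div_le_div_iff₀ hpos (by linarith)]
      have : (l : ℝ) ^ 2 * (l - 1) ≤ (l : ℝ) ^ 3 - l := by nlinarith
      calc κ' * (l : ℝ) ^ 2 * (l - 1) = κ' * ((l : ℝ) ^ 2 * (l - 1)) := by ring
        _ ≤ κ' * ((l : ℝ) ^ 3 - l) := by gcongr

/-- lower bound for the density -/
lemma gS_ge (hpen : D0H11.TW.S_PEN) (H : Finset ℤ) (h0 : (0 : ℤ) ∈ H) (n l : ℕ) (hl : l.Prime) (hl21 : 21 ≤ l)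
    (hH : ∀ h ∈ H, ∀ h' ∈ H, h ≠ h' → ¬ (l : ℤ) ∣ h - h') :
    (H.card : ℝ) / l - (if l ∣ n then 1 / (l : ℝ) else 0) - 21 * H.card / (l : ℝ) ^ 2 ≤ gS H n l := by
  classical
  have h1 := SS_card_ge hpen H n l hl (by omega) hH
  have h2 := Gl_card_le l hl (by omega) n
  have h3 := Gl_pos l hl (by omega) n
  set H' := H.filter (fun h => ¬ ((l : ℤ) ∣ n ∧ (l : ℤ) ∣ h)) with hH'
  have hlr : (21 : ℝ) ≤ l := by exact_mod_cast hl21
  have hl0 : (0 : ℝ) < l := by linarith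
  have h4 : (H'.card : ℝ) ≤ H.card := by exact_mod_cast Finset.card_filter_le _ _
  have h5 : (H.card : ℝ) - (if l ∣ n then 1 else 0) ≤ H'.card := by
    split_ifs with hln
    · have h6 : H.erase 0 ⊆ H' := by
        intro h hh
        rw [Finset.mem_erase] at hh
        rw [hH', Finset.mem_filter]
        refine ⟨hh.2, fun h7 => ?_⟩
        apply hH h hh.2 0 h0 hh.1
        rw [sub_zero]
        exact h7.2
      have h7 := Finset.card_le_card h6
      rw [Finset.card_erase_of_mem h0] at h7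
      have h8 : H.card ≤ H'.card + 1 := by omega
      have h9 : (H.card : ℝ) ≤ H'.card + 1 := by exact_mod_cast h8
      linarith
    · have h6 : H ⊆ H' := by
        intro h hh
        rw [hH', Finset.mem_filter]
        refine ⟨hh, fun h7 => hln ?_⟩
        exact_mod_cast h7.1
      have h7 := Finset.card_le_card h6
      have h9 : (H.card : ℝ) ≤ H'.card := by exact_mod_cast h7
      linarith
  have h6 : (H'.card : ℝ) / l - 21 * H'.card / (l : ℝ) ^ 2 ≤ gS H n l := by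
    unfold gS
    rw [le_div_iff₀ h3]
    refine le_trans ?_ h1
    have h7 : (0 : ℝ) ≤ H'.card / l - 21 * H'.card / (l : ℝ) ^ 2 := by
      rw [sub_nonneg, div_le_div_iff₀ (by positivity) hl0]
      have : (0 : ℝ) ≤ H'.card := by positivity
      nlinarith [mul_nonneg this hl0.le]
    refine (mul_le_mul_of_nonneg_left h2 h7).trans ?_
    have h8 : ((H'.card : ℝ) / l - 21 * H'.card / (l : ℝ) ^ 2) * ((l : ℝ) ^ 3 + (l : ℝ) ^ 2) =
        H'.card * ((l - 21) * (l + 1)) := by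
      field_simp
    rw [h8]
    apply mul_le_mul_of_nonneg_left _ (by positivity)
    nlinarith
  refine le_trans ?_ h6
  have h7 : (H.card : ℝ) / l - (if l ∣ n then 1 / (l : ℝ) else 0) ≤ H'.card / l := by
    have : (H.card : ℝ) / l - (if l ∣ n then 1 / (l : ℝ) else 0) = ((H.card : ℝ) - (if l ∣ n then 1 else 0)) / l := by
      split_ifs <;> ring
    rw [this]
    gcongr
  have h8 : 21 * (H'.card : ℝ) / (l : ℝ) ^ 2 ≤ 21 * H.card / (l : ℝ) ^ 2 := by gcongr
  linarith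

/-- the sum of the reciprocals of the primes dividing `n` -/
lemma ratio_ge (n : ℕ) (hn : 1 ≤ n) (P : Finset ℕ) (hP : ∀ p ∈ P, p.Prime) :
    Real.exp (∑ p ∈ P, (if p ∣ n then 1 / (p : ℝ) else 0)) ≤ (n : ℝ) / Nat.totient n := by
  have hn0 : (0 : ℝ) < n := by exact_mod_cast hn
  have h1 : (Nat.totient n : ℝ) = n * ∏ p ∈ n.primeFactors, (1 - (p : ℝ)⁻¹) := by
    have := Nat.totient_eq_mul_prod_factors n
    have h2 : ((Nat.totient n : ℚ) : ℝ) = ((n * ∏ p ∈ n.primeFactors, (1 - (p : ℚ)⁻¹) : ℚ) : ℝ) := by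
      rw [this]
    push_cast at h2
    exact h2
  have h2 : (n : ℝ) / (Nat.totient n : ℝ) = ∏ p ∈ n.primeFactors, ((1 : ℝ) - (p : ℝ)⁻¹)⁻¹ := by
    rw [h1, ← div_div, div_self hn0.ne', one_div, Finset.prod_inv_distrib]
  rw [h2, ← Finset.sum_filter]
  have h3 : P.filter (fun p => p ∣ n) ⊆ n.primeFactors := by
    intro p hp
    rw [Finset.mem_filter] at hp
    rw [Nat.mem_primeFactors]
    exact ⟨hP p hp.1, hp.2, by omega⟩
  have h4 : ∑ p ∈ P.filter (fun p => p ∣ n), 1 / (p : ℝ) ≤ ∑ p ∈ n.primeFactors, 1 / (p : ℝ) :=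
    Finset.sum_le_sum_of_subset_of_nonneg h3 fun _ _ _ => by positivity
  refine (Real.exp_le_exp.2 h4).trans ?_
  rw [Real.exp_sum]
  apply Finset.prod_le_prod (fun _ _ => (Real.exp_pos _).le)
  intro p hp
  have hp1 : (1 : ℝ) < p := by exact_mod_cast (Nat.prime_of_mem_primeFactors hp).one_lt
  have h5 : (0 : ℝ) < 1 - (p : ℝ)⁻¹ := by
    rw [sub_pos]; exact inv_lt_one_of_one_lt₀ hp1
  rw [le_inv_comm₀ (Real.exp_pos _) h5, ← Real.exp_neg]
  have := Real.add_one_le_exp (-(1 / (p : ℝ)))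
  rw [one_div] at this
  rw [one_div]
  linarith

/-- upper bound for the sieve product -/
lemma V_le (hpen : D0H11.TW.S_PEN) (H : Finset ℤ) (h0 : (0 : ℤ) ∈ H) (z0 : ℕ) (hz0 : 21 ≤ z0)
    (hH : ∀ h ∈ H, ∀ h' ∈ H, |h - h'| < z0) :
    ∃ C : ℝ, 0 < C ∧ ∀ z n : ℕ, z0 ≤ z → 1 ≤ n →
      ∏ p ∈ (Ioc z0 z).filter Nat.Prime, (1 - gS H n p) ≤
        C * ((n : ℝ) / Nat.totient n) / Real.log z ^ H.card := by
  obtain ⟨CM, hCM⟩ := Pool.Agent.Erdos456.Mert.mertens_inv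
  refine ⟨Real.exp (H.card * (CM + z0) + 21 * H.card), Real.exp_pos _, ?_⟩
  intro z n hz hn
  set P := (Ioc z0 z).filter Nat.Prime with hP
  have hPp : ∀ p ∈ P, p.Prime ∧ z0 < p ∧ p ≤ z := by
    intro p hp
    rw [hP, Finset.mem_filter, Finset.mem_Ioc] at hp
    exact ⟨hp.2, hp.1.1, hp.1.2⟩
  have h1 : ∏ p ∈ P, (1 - gS H n p) ≤ ∏ p ∈ P, Real.exp (-((H.card : ℝ) / p - (if p ∣ n then 1 / (p : ℝ) else 0) -
      21 * H.card / (p : ℝ) ^ 2)) := by
    apply Finset.prod_le_prod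
    · intro p hp
      obtain ⟨hp1, hp2, hp3⟩ := hPp p hp
      have h2 := Gl_pos p hp1 (by omega) n
      unfold gS
      rw [sub_nonneg, div_le_one h2]
      have : (SS H n p).card ≤ (Gl n p).card := by
        unfold SS
        exact Finset.card_filter_le _ _
      exact_mod_cast this
    · intro p hp
      obtain ⟨hp1, hp2, hp3⟩ := hPp p hp
      have h2 := gS_ge hpen H h0 n p hp1 (by omega) (by
        intro h hh h' hh' hne hd
        apply hne
        have h3 := hH h hh h' hh'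
        have h4 := Int.eq_zero_of_abs_lt_dvd hd (by
          have : (z0 : ℤ) < p := by exact_mod_cast hp2
          linarith)
        linarith)
      have h3 := Real.add_one_le_exp (-((H.card : ℝ) / p - (if p ∣ n then 1 / (p : ℝ) else 0) -
        21 * H.card / (p : ℝ) ^ 2))
      linarith
  refine h1.trans ?_
  rw [← Real.exp_sum]
  have h2 : ∑ p ∈ P, -((H.card : ℝ) / p - (if p ∣ n then 1 / (p : ℝ) else 0) - 21 * H.card / (p : ℝ) ^ 2) =
      -(H.card * ∑ p ∈ P, 1 / (p : ℝ)) + ∑ p ∈ P, (if p ∣ n then 1 / (p : ℝ) else 0) +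
        21 * H.card * ∑ p ∈ P, ((p : ℝ) ^ 2)⁻¹ := by
    rw [Finset.mul_sum, Finset.mul_sum, ← Finset.sum_neg_distrib, ← Finset.sum_add_distrib,
      ← Finset.sum_add_distrib]
    refine Finset.sum_congr rfl fun p _ => ?_
    ring
  rw [h2]
  have h3 : ∑ p ∈ P, ((p : ℝ) ^ 2)⁻¹ ≤ 1 := by
    have h4 : ∑ p ∈ P, ((p : ℝ) ^ 2)⁻¹ ≤ ∑ p ∈ Ioc z0 z, ((p : ℝ) ^ 2)⁻¹ :=
      Finset.sum_le_sum_of_subset_of_nonneg (Finset.filter_subset _ _) fun _ _ _ => by positivity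
    have h5 := sum_Ioc_inv_sq_le_sub (α := ℝ) (k := z0) (n := z) (by omega) hz
    have h6 : (z0 : ℝ)⁻¹ ≤ 1 := inv_le_one_of_one_le₀ (by exact_mod_cast (by omega : 1 ≤ z0))
    have h7 : (0 : ℝ) ≤ (z : ℝ)⁻¹ := by positivity
    linarith
  have h4 : Real.log (Real.log z) - CM - z0 ≤ ∑ p ∈ P, 1 / (p : ℝ) := by
    have h5 := (abs_le.1 (hCM z (by omega))).1
    have h6 : ∑ p ∈ (Icc 1 z).filter Nat.Prime, (1 : ℝ) / p ≤
        ∑ p ∈ P, 1 / (p : ℝ) + ∑ p ∈ (Icc 1 z0).filter Nat.Prime, 1 / (p : ℝ) := by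
      have h7 : (Icc 1 z).filter Nat.Prime ⊆ P ∪ (Icc 1 z0).filter Nat.Prime := by
        intro p hp
        rw [Finset.mem_filter, Finset.mem_Icc] at hp
        rw [Finset.mem_union, hP, Finset.mem_filter, Finset.mem_filter, Finset.mem_Ioc, Finset.mem_Icc]
        by_cases h : p ≤ z0
        · right; exact ⟨⟨hp.1.1, h⟩, hp.2⟩
        · left; exact ⟨⟨by omega, hp.1.2⟩, hp.2⟩
      refine (Finset.sum_le_sum_of_subset_of_nonneg h7 fun _ _ _ => by positivity).trans ?_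
      rw [← Finset.sum_union_inter]
      have : 0 ≤ ∑ p ∈ P ∩ (Icc 1 z0).filter Nat.Prime, 1 / (p : ℝ) :=
        Finset.sum_nonneg fun _ _ => by positivity
      linarith
    have h7 : ∑ p ∈ (Icc 1 z0).filter Nat.Prime, 1 / (p : ℝ) ≤ z0 := by
      have h8 : ∀ p ∈ (Icc 1 z0).filter Nat.Prime, 1 / (p : ℝ) ≤ 1 := by
        intro p hp
        rw [Finset.mem_filter, Finset.mem_Icc] at hp
        have : (1 : ℝ) ≤ p := by exact_mod_cast hp.1.1
        rw [div_le_one (by linarith)]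
        exact this
      refine (Finset.sum_le_card_nsmul _ _ _ h8).trans ?_
      rw [nsmul_eq_mul, mul_one]
      have h9 := Finset.card_filter_le (Icc 1 z0) Nat.Prime
      simp at h9
      exact_mod_cast h9
    linarith
  have hlogz : 0 < Real.log z := Real.log_pos (by exact_mod_cast (by omega : 1 < z))
  have h5 := ratio_ge n hn P (fun p hp => (hPp p hp).1)
  calc Real.exp (-(H.card * ∑ p ∈ P, 1 / (p : ℝ)) + ∑ p ∈ P, (if p ∣ n then 1 / (p : ℝ) else 0) +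
        21 * H.card * ∑ p ∈ P, ((p : ℝ) ^ 2)⁻¹)
      ≤ Real.exp ((H.card * (CM + z0) + 21 * H.card) + ∑ p ∈ P, (if p ∣ n then 1 / (p : ℝ) else 0) +
          -(H.card * Real.log (Real.log z))) := by
        apply Real.exp_le_exp.2
        have h6 := mul_le_mul_of_nonneg_left h4 (Nat.cast_nonneg (α := ℝ) H.card)
        have h7 := mul_le_mul_of_nonneg_left h3 (by positivity : (0 : ℝ) ≤ 21 * H.card)
        linarith
    _ = Real.exp (H.card * (CM + z0) + 21 * H.card) * Real.exp (∑ p ∈ P, (if p ∣ n then 1 / (p : ℝ) else 0)) /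
          Real.log z ^ H.card := by
        rw [Real.exp_add, Real.exp_add, Real.exp_neg, ← div_eq_mul_inv]
        congr 1
        rw [mul_comm (H.card : ℝ) (Real.log (Real.log z)), Real.exp_mul, Real.exp_log hlogz, Real.rpow_natCast]
    _ ≤ _ := by gcongr

open Classical in
/-- module 14 from module 13 -/
theorem sv (hpen : D0H11.TW.S_PEN) : D0H11.TW.S_SV := by
  intro H δ h0 hδ
  obtain ⟨C0, hC0, hFL⟩ := Pool.Agent.H20R2.fLem (4 * H.card)
  obtain ⟨C, hC, hdist⟩ := distribution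
  -- a bound for the differences
  obtain ⟨D, hD⟩ : ∃ D : ℕ, ∀ h ∈ H, ∀ h' ∈ H, |h - h'| < D := by
    refine ⟨(∑ h ∈ H, ∑ h' ∈ H, (h - h').natAbs) + 1, ?_⟩
    intro h hh h' hh'
    have h1 : (h - h').natAbs ≤ ∑ h' ∈ H, (h - h').natAbs :=
      Finset.single_le_sum (f := fun h' => (h - h').natAbs) (fun _ _ => Nat.zero_le _) hh'
    have h2 : ∑ h' ∈ H, (h - h').natAbs ≤ ∑ h ∈ H, ∑ h' ∈ H, (h - h').natAbs :=
      Finset.single_le_sum (f := fun h => ∑ h' ∈ H, (h - h').natAbs) (fun _ _ => Nat.zero_le _) hh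
    have h3 : |h - h'| = ((h - h').natAbs : ℤ) := Int.abs_eq_natAbs _
    rw [h3]
    have : (h - h').natAbs < (∑ h ∈ H, ∑ h' ∈ H, (h - h').natAbs) + 1 := by omega
    exact_mod_cast this
  set z0 : ℕ := C0 + D + 21 with hz0
  obtain ⟨C1, hC1, hV⟩ := V_le hpen H h0 z0 (by omega) (fun h hh h' hh' => by
    have := hD h hh h' hh'
    rw [hz0]; push_cast; linarith)
  obtain ⟨B1, hB1⟩ := exists_nat_ge (1 / δ)
  set B : ℕ := 100 * (16 * (C0 * C0) + 1) + B1 with hB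
  have hBpos : 1 ≤ B := by omega
  have hBr : (0 : ℝ) < B := by exact_mod_cast hBpos
  have hBδ : 1 / (B : ℝ) ≤ δ := by
    have h1 : 1 / δ ≤ B := by
      have : (B1 : ℝ) ≤ B := by exact_mod_cast (show B1 ≤ B by omega)
      linarith
    rw [div_le_iff₀ hδ] at h1
    rw [div_le_iff₀ hBr]
    linarith
  obtain ⟨n1, hn1⟩ := large_rpow (2 * C) (3 / 100) (by norm_num)
  obtain ⟨n2, hn2⟩ := large_rpow (z0 : ℝ) (1 / (2 * B)) (by positivity)
  refine ⟨2 * C1 * (2 * B) ^ H.card, by positivity, n1 + n2 + 2 ^ B + 2, ?_⟩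
  intro n hnbig hno
  have hn : 1 ≤ n := hno.pos
  have hnr : (1 : ℝ) ≤ n := by exact_mod_cast hn
  have hn0 : (0 : ℝ) < n := by linarith
  have h2B : 0 < 2 ^ B := by positivity
  have hn1' := hn1 n (by omega)
  have hn2' := hn2 n (by omega)
  have hlogn : 0 < Real.log n := Real.log_pos (by exact_mod_cast (by omega : 1 < n))
  -- scale
  obtain ⟨J, hJ1, hJ2⟩ := exists_scale B n hBpos (by omega)
  set z : ℕ := 2 ^ 2 ^ J with hz
  have hz2 : 2 ≤ z := by
    have h1 : 1 ≤ 2 ^ J := Nat.one_le_two_pow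
    calc 2 = 2 ^ 1 := rfl
      _ ≤ 2 ^ 2 ^ J := Nat.pow_le_pow_right (by norm_num) h1
  have hzr : (2 : ℝ) ≤ z := by exact_mod_cast hz2
  have hz0r : (0 : ℝ) < z := by linarith
  have hzB : (z : ℝ) ≤ (n : ℝ) ^ (1 / (B : ℝ)) := by
    have h1 : (z : ℝ) ^ B ≤ n := by exact_mod_cast hJ1
    calc (z : ℝ) = ((z : ℝ) ^ B) ^ (1 / (B : ℝ)) := by
          rw [← Real.rpow_natCast, ← Real.rpow_mul hz0r.le, mul_one_div_cancel hBr.ne', Real.rpow_one]
      _ ≤ _ := Real.rpow_le_rpow (by positivity) h1 (by positivity)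
  have hzδ : (n : ℝ) ^ (1 / (2 * B : ℝ)) < z := by
    have h1 : (n : ℝ) < (z : ℝ) ^ (2 * B) := by
      have : (2 ^ 2 ^ (J + 1)) ^ B = z ^ (2 * B) := by
        rw [hz, pow_mul, ← pow_mul 2 (2 ^ J) 2, pow_succ]
      rw [this] at hJ2
      exact_mod_cast hJ2
    calc (n : ℝ) ^ (1 / (2 * B : ℝ)) < ((z : ℝ) ^ (2 * B)) ^ (1 / (2 * B : ℝ)) :=
          Real.rpow_lt_rpow (by positivity) h1 (by positivity)
      _ = z := by
        rw [← Real.rpow_natCast, ← Real.rpow_mul hz0r.le]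
        push_cast
        rw [mul_one_div_cancel (by positivity), Real.rpow_one]
  have hzz0 : z0 ≤ z := by
    have : (z0 : ℝ) < z := lt_of_le_of_lt hn2' hzδ
    exact_mod_cast this.le
  have hlogz : Real.log n / (2 * B) ≤ Real.log z := by
    have h1 := Real.log_le_log (by positivity) hzδ.le
    rw [Real.log_rpow hn0] at h1
    calc Real.log n / (2 * B) = 1 / (2 * B) * Real.log n := by ring
      _ ≤ _ := h1
  -- primes
  set P : Finset ℕ := (Ioc z0 z).filter Nat.Prime with hP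
  have hPp : ∀ p ∈ P, p.Prime ∧ z0 < p ∧ p ≤ z := by
    intro p hp
    rw [hP, Finset.mem_filter, Finset.mem_Ioc] at hp
    exact ⟨hp.2, hp.1.1, hp.1.2⟩
  have hP2 : ∀ p ∈ P, p ≠ 2 := fun p hp => by have := (hPp p hp).2.1; omega
  have hgb : ∀ p ∈ P, 0 ≤ gS H n p ∧ gS H n p ≤ ((4 * H.card : ℕ) : ℝ) / ((p : ℝ) - 1) := fun p hp =>
    gS_bound H n p (hPp p hp).1 (hP2 p hp)
  set A := prc n 1 0 with hA
  have hAp : A = preps n := prc_one n
  obtain ⟨e, he⟩ := exists_injective_nat (Fin 4 → ℤ)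
  set Ω : Finset ℕ := A.map ⟨e, he⟩ with hΩ
  set hit : ℕ → ℕ → Prop := fun p m => ∀ X, e X = m → red p X ∈ SS H n p with hhit
  have hhit' : ∀ p X, hit p (e X) ↔ red p X ∈ SS H n p := by
    intro p X
    constructor
    · intro h; exact h X rfl
    · intro h Y hY
      rw [he hY]; exact h
  set err : Finset ℕ → ℝ := fun T => C * (((1 : ℕ)) : ℝ) ^ 11 * ((∏ l ∈ T, l : ℕ) : ℝ) ^ 15 * (n : ℝ) ^ (19 / 20 : ℝ) with herr
  have hfl := hFL C0 J z0 P (gS H n) le_rfl (by omega) (fun p hp => ⟨(hPp p hp).1, (hPp p hp).2.1, (hPp p hp).2.2⟩)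
    (fun p hp => hgb p hp) Ω (fun _ => 1) hit (A.card : ℝ) err (fun _ _ => zero_le_one) (by positivity)
    (fun T hT _ => by
      have h1 := hdist n 1 hn one_pos odd_one squarefree_one 0 (good_one n) T
        (fun l hl => ⟨(hPp l (hT hl)).1, fun h => (hPp l (hT hl)).1.one_lt.ne' (Nat.dvd_one.1 h),
          hP2 l (hT hl), Gl_nonempty l (hPp l (hT hl)).1 (hP2 l (hT hl)) n⟩)
        (fun l => SS H n l) (fun l _ c hc => ((mem_SS H n l c).1 hc).1)
      have h2 : ∑ m ∈ Ω.filter (fun m => ∀ p ∈ T, hit p m), (1 : ℝ) =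
          (((prc n 1 0).filter (fun X => ∀ l ∈ T, red l X ∈ SS H n l)).card : ℝ) := by
        rw [Finset.sum_const, nsmul_eq_mul, mul_one, hΩ, Finset.filter_map, Finset.card_map]
        congr 2
        ext X
        simp only [Finset.mem_filter, Function.comp, Function.Embedding.coeFn_mk, hhit']
        rfl
      rw [h2]
      exact h1)
  -- the sifted set
  set S : Finset (Fin 4 → ℤ) := A.filter (fun X => ∀ p ∈ P, red p X ∉ SS H n p) with hS
  have hScard : ∑ m ∈ Ω.filter (fun m => ∀ p ∈ P, ¬ hit p m), (1 : ℝ) = (S.card : ℝ) := by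
    rw [Finset.sum_const, nsmul_eq_mul, mul_one, hΩ, Finset.filter_map, Finset.card_map]
    congr 2
    ext X
    simp only [Finset.mem_filter, Function.comp, Function.Embedding.coeFn_mk, hhit']
    rw [hS, Finset.mem_filter]
  have hfl' : |(S.card : ℝ) - A.card * ∏ p ∈ P, (1 - gS H n p)| ≤
      (1 / 2 : ℝ) ^ C0 * (A.card * ∏ p ∈ P, (1 - gS H n p)) +
        ((J : ℝ) + 2) * ∑ T ∈ P.powerset.filter (fun T : Finset ℕ => ∏ p ∈ T, p ≤ z ^ (C0 * C0)), err T := by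
    rw [← hScard]
    exact hfl
  have hV' := hV z n hzz0 hn
  rw [← hP] at hV'
  set V := ∏ p ∈ P, (1 - gS H n p) with hVdef
  have hV0 : 0 ≤ V := by
    apply Finset.prod_nonneg
    intro p hp
    have h2 := Gl_pos p (hPp p hp).1 (hP2 p hp) n
    unfold gS
    rw [sub_nonneg, div_le_one h2]
    have : (SS H n p).card ≤ (Gl n p).card := by
      unfold SS
      exact Finset.card_filter_le _ _
    exact_mod_cast this
  have hhalf : (1 / 2 : ℝ) ^ C0 ≤ 1 := pow_le_one₀ (by norm_num) (by norm_num)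
  have hErr : ((J : ℝ) + 2) * ∑ T ∈ P.powerset.filter (fun T : Finset ℕ => ∏ p ∈ T, p ≤ z ^ (C0 * C0)), err T ≤
      2 * C * ((z : ℝ) ^ (16 * (C0 * C0) + 1) * (n : ℝ) ^ (19 / 20 : ℝ)) := by
    have h1 : ∀ T ∈ P.powerset.filter (fun T : Finset ℕ => ∏ p ∈ T, p ≤ z ^ (C0 * C0)), err T ≤
        C * ((z : ℝ) ^ (C0 * C0)) ^ 15 * (n : ℝ) ^ (19 / 20 : ℝ) := by
      intro T hT
      have h2 := (Finset.mem_filter.1 hT).2
      have h3 : ((∏ l ∈ T, l : ℕ) : ℝ) ≤ (z : ℝ) ^ (C0 * C0) := by exact_mod_cast h2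
      rw [herr]
      simp only [Nat.cast_one, one_pow, mul_one]
      gcongr
    have h2 := Finset.sum_le_sum h1
    rw [Finset.sum_const, nsmul_eq_mul] at h2
    have h3 := card_sets P (fun p hp => (hPp p hp).1) (z ^ (C0 * C0))
    have h4 : (((P.powerset.filter (fun T : Finset ℕ => ∏ p ∈ T, p ≤ z ^ (C0 * C0))).card : ℕ) : ℝ) ≤ (z : ℝ) ^ (C0 * C0) := by
      exact_mod_cast h3
    have hJz : (J : ℝ) + 2 ≤ 2 * z := by
      have h5 : J + 2 ≤ 2 * z := by
        have h6 : J < 2 ^ J := Nat.lt_two_pow_self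
        have h7 : 2 ^ J < 2 ^ 2 ^ J := Nat.lt_two_pow_self
        omega
      exact_mod_cast h5
    calc ((J : ℝ) + 2) * ∑ T ∈ P.powerset.filter (fun T : Finset ℕ => ∏ p ∈ T, p ≤ z ^ (C0 * C0)), err T
        ≤ (2 * z) * ((z : ℝ) ^ (C0 * C0) * (C * ((z : ℝ) ^ (C0 * C0)) ^ 15 * (n : ℝ) ^ (19 / 20 : ℝ))) := by
          apply mul_le_mul hJz (h2.trans (by gcongr)) _ (by positivity)
          apply Finset.sum_nonneg
          intro T _
          rw [herr]
          positivity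
      _ = _ := by ring
  have hzpow1 : (z : ℝ) ^ (16 * (C0 * C0) + 1) ≤ (n : ℝ) ^ (1 / 100 : ℝ) := by
    calc (z : ℝ) ^ (16 * (C0 * C0) + 1) ≤ ((n : ℝ) ^ (1 / (B : ℝ))) ^ (16 * (C0 * C0) + 1) := by gcongr
      _ = (n : ℝ) ^ ((16 * (C0 * C0) + 1 : ℕ) / (B : ℝ)) := by
        rw [← Real.rpow_natCast, ← Real.rpow_mul hn0.le]
        congr 1
        ring
      _ ≤ _ := by
        apply Real.rpow_le_rpow_of_exponent_le hnr
        rw [div_le_div_iff₀ hBr (by norm_num)]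
        have : (16 * (C0 * C0) + 1) * 100 ≤ 1 * B := by omega
        exact_mod_cast this
  have hErr2 : 2 * C * ((z : ℝ) ^ (16 * (C0 * C0) + 1) * (n : ℝ) ^ (19 / 20 : ℝ)) ≤ (n : ℝ) ^ (99 / 100 : ℝ) := by
    calc 2 * C * ((z : ℝ) ^ (16 * (C0 * C0) + 1) * (n : ℝ) ^ (19 / 20 : ℝ))
        ≤ (n : ℝ) ^ (3 / 100 : ℝ) * ((n : ℝ) ^ (1 / 100 : ℝ) * (n : ℝ) ^ (19 / 20 : ℝ)) := by gcongr
      _ = (n : ℝ) ^ (99 / 100 : ℝ) := by
        rw [← Real.rpow_add hn0, ← Real.rpow_add hn0]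
        norm_num
  have hup : (S.card : ℝ) ≤ 2 * (A.card * V) + (n : ℝ) ^ (99 / 100 : ℝ) := by
    have h1 := (abs_le.1 hfl').2
    have h2 : (1 / 2 : ℝ) ^ C0 * (A.card * V) ≤ 1 * (A.card * V) := by
      apply mul_le_mul_of_nonneg_right hhalf (by positivity)
    linarith
  -- the set of the statement is contained in S
  have hsub : (preps n).filter (fun v => ∀ h ∈ H, ∀ l : ℕ, l.Prime → (l : ℝ) ≤ (n : ℝ) ^ δ →
      ¬ (l : ℤ) ∣ pf v - h) ⊆ S := by
    intro v hv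
    rw [Finset.mem_filter] at hv
    rw [hS, Finset.mem_filter, hAp]
    refine ⟨hv.1, ?_⟩
    intro p hp hmem
    obtain ⟨hp1, hp2, hp3⟩ := hPp p hp
    rw [mem_SS] at hmem
    obtain ⟨_, h, hh, _, hd⟩ := hmem
    apply hv.2 h hh p hp1
    · have h1 : (p : ℝ) ≤ z := by exact_mod_cast hp3
      refine h1.trans (hzB.trans ?_)
      exact Real.rpow_le_rpow_of_exponent_le hnr hBδ
    · have h1 := pf_congr p v (red p v) (red_dvd p v)
      have h2 := dvd_add hd h1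
      have h3 : pf (red p v) - h + (pf v - pf (red p v)) = pf v - h := by ring
      rwa [h3] at h2
  have hcard : ((((preps n).filter (fun v => ∀ h ∈ H, ∀ l : ℕ, l.Prime → (l : ℝ) ≤ (n : ℝ) ^ δ →
      ¬ (l : ℤ) ∣ pf v - h)).card : ℕ) : ℝ) ≤ S.card := by exact_mod_cast Finset.card_le_card hsub
  refine hcard.trans (hup.trans ?_)
  rw [hAp]
  have hfin : 2 * (((preps n).card : ℝ) * V) ≤
      2 * C1 * (2 * B) ^ H.card * ((preps n).card : ℝ) * ((n : ℝ) / Nat.totient n) / Real.log n ^ H.card := by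
    have h1 : C1 * ((n : ℝ) / Nat.totient n) / Real.log z ^ H.card ≤
        C1 * ((n : ℝ) / Nat.totient n) / (Real.log n / (2 * B)) ^ H.card := by
      have : 0 < Real.log n / (2 * B) := by positivity
      gcongr
    calc 2 * (((preps n).card : ℝ) * V) ≤ 2 * (((preps n).card : ℝ) *
          (C1 * ((n : ℝ) / Nat.totient n) / (Real.log n / (2 * B)) ^ H.card)) := by
          gcongr
          exact hV'.trans h1
      _ = _ := by
        rw [div_pow]
        field_simp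
  linarith

end Pool.Agent.D0H12.TW
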